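import Pool.Agent.W709.VC.Defs

/-!
# VC-RS : Riemann sums for `log |RR|` away from the real axis
-/

set_option autoImplicit false

namespace Pool.Agent.W440.VC

open Filter Finset Pool.Agent.W709.VC
open scoped Real Topology

theorem log_lip {m a b : ℝ} (hm : 0 < m) (ha : m ≤ a) (hb : m ≤ b) :
    |Real.log a - Real.log b| ≤ |a - b| / m := by
  have key : ∀ x y : ℝ, m ≤ x → m ≤ y → Real.log x - Real.log y ≤ |x - y| / m := by
    intro x y hx hy
    have hx0 : 0 < x := hm.trans_le hx
    have hy0 : 0 < y := hm.trans_le hy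
    rw [← Real.log_div hx0.ne' hy0.ne']
    have h1 := Real.log_le_sub_one_of_pos (div_pos hx0 hy0)
    have h2 : x / y - 1 = (x - y) / y := by field_simp
    rw [h2] at h1
    have h3 : (x - y) / y ≤ |x - y| / y := by
      apply div_le_div_of_nonneg_right (le_abs_self _) hy0.le
    have h4 : |x - y| / y ≤ |x - y| / m := by
      apply div_le_div_of_nonneg_left (abs_nonneg _) hm hy
    linarith
  rw [abs_le]
  constructor
  · have := key b a hb ha
    rw [abs_sub_comm] at this
    linarith
  · exact key a b ha hb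

theorem ell_low {h η τ : ℝ} (hh : 0 < h) (hη : h ≤ η) :
    2 * (Real.cosh h - 1) ≤ 2 * Real.cosh η + 2 * Real.cos τ := by
  have h1 : Real.cosh h ≤ Real.cosh η := by
    rw [Real.cosh_le_cosh, abs_of_pos hh, abs_of_pos (hh.trans_le hη)]
    exact hη
  have h2 := Real.neg_one_le_cos τ
  linarith

theorem cosh_pos' {h : ℝ} (hh : 0 < h) : 0 < Real.cosh h - 1 := by
  have := Real.one_lt_cosh.2 hh.ne'
  linarith

theorem cos_lip (s t : ℝ) : |Real.cos s - Real.cos t| ≤ |s - t| := by
  have := Real.lipschitzWith_cos.dist_le_mul s t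
  simpa [Real.dist_eq] using this

theorem ell_lip {h η : ℝ} (hh : 0 < h) (hη : h ≤ η) (s t : ℝ) :
    |ell η s - ell η t| ≤ |s - t| / (Real.cosh h - 1) := by
  unfold ell
  have hp := cosh_pos' hh
  have h1 := log_lip (by linarith : 0 < 2 * (Real.cosh h - 1)) (ell_low (τ := s) hh hη)
    (ell_low (τ := t) hh hη)
  refine h1.trans ?_
  have h2 : 2 * Real.cosh η + 2 * Real.cos s - (2 * Real.cosh η + 2 * Real.cos t) =
      2 * (Real.cos s - Real.cos t) := by ring
  rw [h2, abs_mul, abs_of_pos (by norm_num : (0:ℝ) < 2), mul_div_mul_left _ _ (by norm_num)]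
  exact div_le_div_of_nonneg_right (cos_lip s t) hp.le

theorem ell_cont {h η : ℝ} (hh : 0 < h) (hη : h ≤ η) : Continuous (ell η) := by
  unfold ell
  apply Continuous.log
  · fun_prop
  · intro x
    have := ell_low (τ := x) hh hη
    have hp := cosh_pos' hh
    have : 0 < 2 * Real.cosh η + 2 * Real.cos x := by linarith
    exact this.ne'

/-- one cell -/
theorem cell {h η : ℝ} (hh : 0 < h) (hη : h ≤ η) (x w p : ℝ) (hw : 0 < w) (hp : x ≤ p)
    (hp' : p ≤ x + w) :
    |w * ell η p - ∫ τ in x..(x + w), ell η τ| ≤ w * (w / (Real.cosh h - 1)) := by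
  have hc := ell_cont hh hη
  have hq := cosh_pos' hh
  have h1 : w * ell η p - ∫ τ in x..(x + w), ell η τ =
      ∫ τ in x..(x + w), (ell η p - ell η τ) := by
    rw [intervalIntegral.integral_sub (by simp) (hc.intervalIntegrable _ _),
      intervalIntegral.integral_const]
    simp
  rw [h1, ← Real.norm_eq_abs]
  have h2 := intervalIntegral.norm_integral_le_of_norm_le_const
    (a := x) (b := x + w) (f := fun τ => ell η p - ell η τ) (C := w / (Real.cosh h - 1)) (by
      intro τ hτ
      rw [Set.uIoc_of_le (by linarith)] at hτ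
      rw [Real.norm_eq_abs]
      refine (ell_lip hh hη p τ).trans ?_
      apply div_le_div_of_nonneg_right _ hq.le
      rw [abs_le]
      constructor <;> linarith [hτ.1, hτ.2])
  refine h2.trans ?_
  rw [add_sub_cancel_left, abs_of_pos hw, mul_comm]

theorem norm_factor (b η φ : ℝ) :
    ‖(-2 * Complex.cos (-b + η * Complex.I) - 2 * (Real.cos φ : ℂ))‖ ^ 2 =
      (2 * Real.cosh η + 2 * Real.cos (b + φ)) * (2 * Real.cosh η + 2 * Real.cos (b - φ)) := by
  have h1 : (-2 * Complex.cos (-b + η * Complex.I) - 2 * (Real.cos φ : ℂ)) =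
      ((-2 * (Real.cos b * Real.cosh η + Real.cos φ) : ℝ) : ℂ) +
        ((-2 * (Real.sin b * Real.sinh η) : ℝ) : ℂ) * Complex.I := by
    rw [Complex.cos_add, Complex.cos_neg, Complex.sin_neg, Complex.cos_mul_I, Complex.sin_mul_I]
    push_cast
    ring
  rw [h1, ← Complex.normSq_eq_norm_sq, Complex.normSq_add_mul_I, Real.cos_add, Real.cos_sub]
  have e1 := Real.sin_sq_add_cos_sq b
  have e2 := Real.sin_sq_add_cos_sq φ
  have e3 := Real.cosh_sq η
  have e4 : Real.sin b ^ 2 = 1 - Real.cos b ^ 2 := by linarith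
  have e5 : Real.sin φ ^ 2 = 1 - Real.cos φ ^ 2 := by linarith
  have e6 : Real.sinh η ^ 2 = Real.cosh η ^ 2 - 1 := by linarith
  have l : (-2 * (Real.cos b * Real.cosh η + Real.cos φ)) ^ 2 +
      (-2 * (Real.sin b * Real.sinh η)) ^ 2 =
      4 * (Real.cos b * Real.cosh η + Real.cos φ) ^ 2 + 4 * (Real.sin b ^ 2 * Real.sinh η ^ 2) := by
    ring
  have r : (2 * Real.cosh η + 2 * (Real.cos b * Real.cos φ - Real.sin b * Real.sin φ)) *
      (2 * Real.cosh η + 2 * (Real.cos b * Real.cos φ + Real.sin b * Real.sin φ)) =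
      4 * (Real.cosh η + Real.cos b * Real.cos φ) ^ 2 - 4 * (Real.sin b ^ 2 * Real.sin φ ^ 2) := by
    ring
  rw [l, r, e4, e5, e6]
  ring

theorem log_factor {h b η φ : ℝ} (hh : 0 < h) (hη : h ≤ η) :
    0 < ‖(-2 * Complex.cos (-b + η * Complex.I) - 2 * (Real.cos φ : ℂ))‖ ∧
    Real.log ‖(-2 * Complex.cos (-b + η * Complex.I) - 2 * (Real.cos φ : ℂ))‖ =
      (ell η (b + φ) + ell η (b - φ)) / 2 := by
  have hp := cosh_pos' hh
  have h1 := ell_low (τ := b + φ) hh hη
  have h2 := ell_low (τ := b - φ) hh hη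
  have h1' : 0 < 2 * Real.cosh η + 2 * Real.cos (b + φ) := by linarith
  have h2' : 0 < 2 * Real.cosh η + 2 * Real.cos (b - φ) := by linarith
  have h3 := norm_factor b η φ
  have h4 : 0 < ‖(-2 * Complex.cos (-b + η * Complex.I) - 2 * (Real.cos φ : ℂ))‖ := by
    rcases (norm_nonneg (-2 * Complex.cos (-b + η * Complex.I) - 2 * (Real.cos φ : ℂ))).lt_or_eq
      with h | h
    · exact h
    · rw [← h] at h3
      have := mul_pos h1' h2'
      rw [← h3] at this
      norm_num at this
  refine ⟨h4, ?_⟩
  have h5 : Real.log (‖(-2 * Complex.cos (-b + η * Complex.I) - 2 * (Real.cos φ : ℂ))‖ ^ 2) =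
      ell η (b + φ) + ell η (b - φ) := by
    rw [h3, Real.log_mul h1'.ne' h2'.ne']
    rfl
  rw [Real.log_pow, Nat.cast_ofNat] at h5
  linarith

theorem rs : S_RS := by
  intro h hh
  have hq := cosh_pos' hh
  refine ⟨2 * π / (Real.cosh h - 1), ?_⟩
  intro N d hN hd b η hη
  have hNr : (0 : ℝ) < N := Nat.cast_pos.2 hN
  have hc := ell_cont hh hη
  have key : ∀ d : ℕ, RR N d (-b + η * Complex.I) ≠ 0 ∧
      |Real.log ‖RR N d (-b + η * Complex.I)‖ -
      N / (4 * π) * (Lf η (b + 2 * π * d / N) - Lf η (b - 2 * π * d / N))| ≤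
        d * (2 * π / N / (Real.cosh h - 1)) := by
    intro d
    induction d with
    | zero => simp [RR]
    | succ d ih =>
      obtain ⟨ih1, ih2⟩ := ih
      obtain ⟨f1, f2⟩ := log_factor (b := b) (φ := phi N d) hh hη
      have hRR : RR N (d + 1) (-b + η * Complex.I) = RR N d (-b + η * Complex.I) *
          (-2 * Complex.cos (-b + η * Complex.I) - 2 * (Real.cos (phi N d) : ℂ)) := by
        unfold RR
        rw [prod_range_succ]
      refine ⟨?_, ?_⟩
      · rw [hRR]
        exact mul_ne_zero ih1 (norm_pos_iff.1 f1)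
      rw [hRR, norm_mul, Real.log_mul (norm_ne_zero_iff.2 ih1) f1.ne', f2]
      set w : ℝ := 2 * π / N with hw
      have hw0 : 0 < w := by positivity
      have c1 := cell hh hη (b + 2 * π * d / N) w (b + phi N d) hw0
        (by
          have : phi N d = 2 * π * d / N + w / 2 := by
            rw [phi, hw]; field_simp
          rw [this]; linarith)
        (by
          have : phi N d = 2 * π * d / N + w / 2 := by
            rw [phi, hw]; field_simp
          rw [this]; linarith)
      have c2 := cell hh hη (b - 2 * π * (d + 1) / N) w (b - phi N d) hw0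
        (by
          have h1 : phi N d = 2 * π * d / N + w / 2 := by
            rw [phi, hw]; field_simp
          have h2 : 2 * π * ((d : ℝ) + 1) / N = 2 * π * d / N + w := by
            rw [hw]; field_simp
          rw [h1, h2]; linarith)
        (by
          have h1 : phi N d = 2 * π * d / N + w / 2 := by
            rw [phi, hw]; field_simp
          have h2 : 2 * π * ((d : ℝ) + 1) / N = 2 * π * d / N + w := by
            rw [hw]; field_simp
          rw [h1, h2]; linarith)
      have e1 : b + 2 * π * d / N + w = b + 2 * π * ((d + 1 : ℕ) : ℝ) / N := by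
        rw [hw]; push_cast; field_simp; ring
      have e2 : b - 2 * π * ((d : ℝ) + 1) / N + w = b - 2 * π * d / N := by
        rw [hw]; field_simp; ring
      have e3 : b - 2 * π * ((d : ℝ) + 1) / N = b - 2 * π * ((d + 1 : ℕ) : ℝ) / N := by
        push_cast; ring
      rw [e1] at c1
      rw [e2, e3] at c2
      have i1 : ∫ τ in (b + 2 * π * d / N)..(b + 2 * π * ((d + 1 : ℕ) : ℝ) / N), ell η τ =
          Lf η (b + 2 * π * ((d + 1 : ℕ) : ℝ) / N) - Lf η (b + 2 * π * d / N) := by
        unfold Lf
        rw [intervalIntegral.integral_interval_sub_left (hc.intervalIntegrable _ _)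
          (hc.intervalIntegrable _ _)]
      have i2 : ∫ τ in (b - 2 * π * ((d + 1 : ℕ) : ℝ) / N)..(b - 2 * π * d / N), ell η τ =
          Lf η (b - 2 * π * d / N) - Lf η (b - 2 * π * ((d + 1 : ℕ) : ℝ) / N) := by
        unfold Lf
        rw [intervalIntegral.integral_interval_sub_left (hc.intervalIntegrable _ _)
          (hc.intervalIntegrable _ _)]
      rw [i1] at c1
      rw [i2] at c2
      set A1 := Lf η (b + 2 * π * ((d + 1 : ℕ) : ℝ) / N)
      set A0 := Lf η (b + 2 * π * d / N)
      set B1 := Lf η (b - 2 * π * ((d + 1 : ℕ) : ℝ) / N)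
      set B0 := Lf η (b - 2 * π * d / N)
      set lg := Real.log ‖RR N d (-b + η * Complex.I)‖
      set K : ℝ := Real.cosh h - 1
      have hNw : (N : ℝ) / (4 * π) = 1 / (2 * w) := by
        rw [hw]; field_simp; norm_num
      rw [hNw] at ih2 ⊢
      have split : lg + (ell η (b + phi N d) + ell η (b - phi N d)) / 2 - 1 / (2 * w) * (A1 - B1) =
          (lg - 1 / (2 * w) * (A0 - B0)) + 1 / (2 * w) * (w * ell η (b + phi N d) - (A1 - A0)) +
            1 / (2 * w) * (w * ell η (b - phi N d) - (B0 - B1)) := by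
        field_simp
        ring
      rw [split]
      have hw2 : (0:ℝ) < 1 / (2 * w) := by positivity
      have t1 : |1 / (2 * w) * (w * ell η (b + phi N d) - (A1 - A0))| ≤ w / K / 2 := by
        rw [abs_mul, abs_of_pos hw2]
        calc 1 / (2 * w) * |w * ell η (b + phi N d) - (A1 - A0)| ≤ 1 / (2 * w) * (w * (w / K)) :=
              mul_le_mul_of_nonneg_left c1 hw2.le
          _ = w / K / 2 := by field_simp
      have t2 : |1 / (2 * w) * (w * ell η (b - phi N d) - (B0 - B1))| ≤ w / K / 2 := by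
        rw [abs_mul, abs_of_pos hw2]
        calc 1 / (2 * w) * |w * ell η (b - phi N d) - (B0 - B1)| ≤ 1 / (2 * w) * (w * (w / K)) :=
              mul_le_mul_of_nonneg_left c2 hw2.le
          _ = w / K / 2 := by field_simp
      refine (abs_add_three _ _ _).trans ?_
      push_cast
      have : ((d : ℝ) + 1) * (w / K) = d * (w / K) + w / K / 2 + w / K / 2 := by ring
      rw [this]
      gcongr
  refine (key d).2.trans ?_
  have hdN : (d : ℝ) ≤ N := Nat.cast_le.2 hd
  have h3 : (N : ℝ) * (2 * π / N / (Real.cosh h - 1)) = 2 * π / (Real.cosh h - 1) := by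
    field_simp
  rw [← h3]
  apply mul_le_mul_of_nonneg_right hdN
  positivity

end Pool.Agent.W440.VC
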